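import Pool.Agent.E8helper51.AZ.P2

/-!
# Apery's linear forms: the coefficients
-/

set_option autoImplicit false

namespace Pool.Agent.E8helper51.AZ

open Finset Pool.Agent.E8helper42.AZ Filter Topology

/-- harmonic numbers -/
def H (s k : ℕ) : ℚ := ∑ j ∈ range k, 1 / ((j : ℚ) + 1) ^ s

/-- the weights -/
def w (k l : ℕ) : ℚ := if k = l then 2 * H 3 k else (H 2 l - H 2 k) / ((k : ℚ) - l)

/-- `a_n` -/
def aq (n : ℕ) : ℚ := ∑ k ∈ range (n + 1), cc n k ^ 2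

/-- `b_n` -/
def bq (n : ℕ) : ℚ := (1 / 2) * ∑ k ∈ range (n + 1), ∑ l ∈ range (n + 1), cc n k * cc n l * w k l

/-- the kernel -/
noncomputable def G (k l : ℕ) (x : ℝ) : ℝ := 1 / ((x + k) * (x + l) ^ 2) + 1 / ((x + l) * (x + k) ^ 2)

lemma hasSum_shift (s k : ℕ) (hs : 2 ≤ s) : HasSum (fun m : ℕ => 1 / ((m : ℝ) + 1 + k) ^ s)
    ((∑' m : ℕ, 1 / ((m : ℝ) + 1) ^ s) - ((H s k : ℚ) : ℝ)) := by
  have h := summable_inv s hs
  have h1 := h.sum_add_tsum_nat_add k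
  have h2 : ∑ i ∈ range k, 1 / ((i : ℝ) + 1) ^ s = ((H s k : ℚ) : ℝ) := by
    unfold H
    push_cast
    rfl
  have h3 : (fun m : ℕ => 1 / ((m : ℝ) + 1 + k) ^ s) = fun m : ℕ => 1 / (((m + k : ℕ) : ℝ) + 1) ^ s := by
    funext m
    push_cast
    congr 2
    ring
  rw [h3, ← h1, h2, add_sub_cancel_left]
  exact ((summable_nat_add_iff k).2 h).hasSum

lemma G_sum (k l : ℕ) : HasSum (fun m : ℕ => G k l ((m : ℝ) + 1)) ((if k = l then 2 * z3 else 0) - ((w k l : ℚ) : ℝ)) := by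
  by_cases h : k = l
  · subst h
    have h1 := (hasSum_shift 3 k (by norm_num)).mul_left 2
    unfold w
    simp only [if_true]
    push_cast
    have h2 : (fun m : ℕ => G k k ((m : ℝ) + 1)) = fun m : ℕ => 2 * (1 / ((m : ℝ) + 1 + k) ^ 3) := by
      funext m
      unfold G
      have : (m : ℝ) + 1 + k ≠ 0 := by positivity
      field_simp
      ring
    rw [h2]
    have e : 2 * z3 - 2 * ((H 3 k : ℚ) : ℝ) = 2 * ((∑' m : ℕ, 1 / ((m : ℝ) + 1) ^ 3) - ((H 3 k : ℚ) : ℝ)) := by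
      unfold z3
      ring
    rw [e]
    exact h1
  · have h0 : ((l : ℝ) - k) ≠ 0 := by
      intro e
      apply h
      have : (l : ℝ) = k := by linarith
      exact_mod_cast this.symm
    have h0' : ((k : ℝ) - l) ≠ 0 := by
      intro e
      apply h0
      linarith
    have h1 := ((hasSum_shift 2 k le_rfl).sub (hasSum_shift 2 l le_rfl)).mul_left (1 / ((l : ℝ) - k))
    unfold w
    simp only [if_neg h]
    have h2 : (fun m : ℕ => G k l ((m : ℝ) + 1)) =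
        fun m : ℕ => 1 / ((l : ℝ) - k) * (1 / ((m : ℝ) + 1 + k) ^ 2 - 1 / ((m : ℝ) + 1 + l) ^ 2) := by
      funext m
      unfold G
      have a1 : (m : ℝ) + 1 + k ≠ 0 := by positivity
      have a2 : (m : ℝ) + 1 + l ≠ 0 := by positivity
      field_simp
      ring
    rw [h2]
    have e : (0 : ℝ) - (((H 2 l - H 2 k) / ((k : ℚ) - l) : ℚ) : ℝ) =
        1 / ((l : ℝ) - k) * (((∑' m : ℕ, 1 / ((m : ℝ) + 1) ^ 2) - ((H 2 k : ℚ) : ℝ)) -
          ((∑' m : ℕ, 1 / ((m : ℝ) + 1) ^ 2) - ((H 2 l : ℚ) : ℝ))) := by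
      push_cast
      rw [show (l : ℝ) - k = -((k : ℝ) - l) by ring]
      field_simp
      ring
    rw [e]
    exact h1

lemma fg (n : ℕ) (x : ℝ) : 2 * (fs n x * gs n x) =
    ∑ k ∈ range (n + 1), ∑ l ∈ range (n + 1), (((cc n k : ℚ) : ℝ) * ((cc n l : ℚ) : ℝ)) * G k l x := by
  have h1 : fs n x * gs n x = ∑ k ∈ range (n + 1), ∑ l ∈ range (n + 1),
      (((cc n k : ℚ) : ℝ) * ((cc n l : ℚ) : ℝ)) * (1 / ((x + k) * (x + l) ^ 2)) := by
    unfold fs gs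
    rw [sum_mul_sum]
    refine sum_congr rfl fun k _ => sum_congr rfl fun l _ => ?_
    rw [div_mul_div_comm, mul_one_div]
  have h2 : fs n x * gs n x = ∑ k ∈ range (n + 1), ∑ l ∈ range (n + 1),
      (((cc n k : ℚ) : ℝ) * ((cc n l : ℚ) : ℝ)) * (1 / ((x + l) * (x + k) ^ 2)) := by
    rw [h1, sum_comm]
    refine sum_congr rfl fun k _ => sum_congr rfl fun l _ => ?_
    ring
  rw [two_mul]
  nth_rw 1 [h1]
  rw [h2, ← sum_add_distrib]
  refine sum_congr rfl fun k _ => ?_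
  rw [← sum_add_distrib]
  refine sum_congr rfl fun l _ => ?_
  unfold G
  ring

theorem Jn_ab (n : ℕ) : Jn n = ((aq n : ℚ) : ℝ) * z3 - ((bq n : ℚ) : ℝ) := by
  have h1 : HasSum (fun m : ℕ => ∑ k ∈ range (n + 1), ∑ l ∈ range (n + 1),
      (((cc n k : ℚ) : ℝ) * ((cc n l : ℚ) : ℝ)) * G k l ((m : ℝ) + 1))
      (∑ k ∈ range (n + 1), ∑ l ∈ range (n + 1), (((cc n k : ℚ) : ℝ) * ((cc n l : ℚ) : ℝ)) *
        ((if k = l then 2 * z3 else 0) - ((w k l : ℚ) : ℝ))) :=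
    hasSum_sum fun k _ => hasSum_sum fun l _ => (G_sum k l).mul_left _
  have h2 : (∑ k ∈ range (n + 1), ∑ l ∈ range (n + 1), (((cc n k : ℚ) : ℝ) * ((cc n l : ℚ) : ℝ)) *
        ((if k = l then 2 * z3 else 0) - ((w k l : ℚ) : ℝ))) = 2 * (((aq n : ℚ) : ℝ) * z3 - ((bq n : ℚ) : ℝ)) := by
    have e1 : ∀ k ∈ range (n + 1), ∑ l ∈ range (n + 1), (((cc n k : ℚ) : ℝ) * ((cc n l : ℚ) : ℝ)) *
        ((if k = l then 2 * z3 else 0) - ((w k l : ℚ) : ℝ)) = ((cc n k : ℚ) : ℝ) ^ 2 * (2 * z3) -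
          ∑ l ∈ range (n + 1), ((cc n k : ℚ) : ℝ) * ((cc n l : ℚ) : ℝ) * ((w k l : ℚ) : ℝ) := by
      intro k hk
      simp only [mul_sub, sum_sub_distrib, mul_ite, mul_zero, sum_ite_eq, if_pos hk]
      ring
    rw [sum_congr rfl e1, sum_sub_distrib, ← sum_mul]
    unfold aq bq
    push_cast
    ring
  have h3 : (fun m : ℕ => ∑ k ∈ range (n + 1), ∑ l ∈ range (n + 1),
      (((cc n k : ℚ) : ℝ) * ((cc n l : ℚ) : ℝ)) * G k l ((m : ℝ) + 1)) = fun m : ℕ => -dR n ((m : ℝ) + 1) := by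
    funext m
    rw [← fg, dR, rn_fs n (show (0 : ℝ) < (m : ℝ) + 1 by positivity)]
    ring
  rw [h3, h2] at h1
  rw [Jn_eq]
  have h4 := h1.tsum_eq
  rw [tsum_neg] at h4
  linear_combination (1 / 2) * h4

lemma cc_sq (n k : ℕ) : cc n k ^ 2 = Pool.Agent.TH499.Apy.sA n k := by
  unfold cc Pool.Agent.TH499.Apy.sA
  rw [mul_pow, mul_pow, ← pow_mul, mul_comm (n + k) 2, pow_mul]
  norm_num

lemma aq_eq (n : ℕ) : aq n = ((Pool.Agent.TH371.Apy.apA n : ℤ) : ℚ) := by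
  rw [Pool.Agent.TH499.Apy.castA n (n + 1) (by omega), aq]
  exact sum_congr rfl fun k _ => cc_sq n k

lemma aq_rec (n : ℕ) : ((n : ℚ) + 2) ^ 3 * aq (n + 2) - cP ((n : ℚ) + 1) * aq (n + 1) + ((n : ℚ) + 1) ^ 3 * aq n = 0 := by
  have h := Pool.Agent.TH371.Apy.recA n
  have h' : ((((n : ℤ) + 2) ^ 3 * Pool.Agent.TH371.Apy.apA (n + 2) : ℤ) : ℚ) =
    (((34 * ((n : ℤ) + 1) ^ 3 + 51 * ((n : ℤ) + 1) ^ 2 + 27 * ((n : ℤ) + 1) + 5) * Pool.Agent.TH371.Apy.apA (n + 1) -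
      ((n : ℤ) + 1) ^ 3 * Pool.Agent.TH371.Apy.apA n : ℤ) : ℚ) := by rw [h]
  push_cast at h'
  rw [aq_eq, aq_eq, aq_eq, cP]
  linear_combination h'

lemma bq_rec (n : ℕ) : ((n : ℚ) + 2) ^ 3 * bq (n + 2) - cP ((n : ℚ) + 1) * bq (n + 1) + ((n : ℚ) + 1) ^ 3 * bq n = 0 := by
  have h := Jn_rec n
  rw [Jn_ab, Jn_ab, Jn_ab] at h
  have h2 : (((((n : ℚ) + 2) ^ 3 * aq (n + 2) - cP ((n : ℚ) + 1) * aq (n + 1) + ((n : ℚ) + 1) ^ 3 * aq n : ℚ)) : ℝ) = 0 := by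
    rw [aq_rec]
    norm_num
  have h3 : (((((n : ℚ) + 2) ^ 3 * bq (n + 2) - cP ((n : ℚ) + 1) * bq (n + 1) + ((n : ℚ) + 1) ^ 3 * bq n : ℚ)) : ℝ) = 0 := by
    unfold cP at h2 ⊢
    push_cast at h2 ⊢
    linear_combination z3 * h2 - h
  exact_mod_cast h3

lemma aq0 : aq 0 = 1 := by simp [aq, cc]

lemma aq1 : aq 1 = 5 := by
  rw [aq, sum_range_succ, sum_range_succ, sum_range_zero]
  norm_num [cc]

lemma bq0 : bq 0 = 0 := by simp [bq, w, H]

lemma bq1 : bq 1 = 6 := by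
  simp only [bq, sum_range_succ, sum_range_zero, w, H]
  norm_num [cc]

lemma pair : AperyPair aq bq := ⟨aq0, aq1, bq0, bq1, aq_rec, bq_rec⟩

lemma cc_int (n k : ℕ) : ∃ z : ℤ, cc n k = z := by
  refine ⟨(-1) ^ (n + k) * ((n.choose k : ℕ) : ℤ) * (((n + k).choose k : ℕ) : ℤ), ?_⟩
  unfold cc
  push_cast
  ring

lemma cc_abs {n k : ℕ} (hk : k ≤ n) : |((cc n k : ℚ) : ℝ)| ≤ 8 ^ n := by
  unfold cc
  push_cast
  rw [abs_mul, abs_mul, abs_pow, abs_neg, abs_one, one_pow, one_mul, Nat.abs_cast, Nat.abs_cast]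
  have h1 : (n.choose k : ℝ) ≤ 2 ^ n := by exact_mod_cast Nat.choose_le_two_pow n k
  have h2 : ((n + k).choose k : ℝ) ≤ 4 ^ n := by
    have : ((n + k).choose k : ℝ) ≤ 2 ^ (n + k) := by exact_mod_cast Nat.choose_le_two_pow (n + k) k
    refine this.trans ?_
    calc (2 : ℝ) ^ (n + k) ≤ 2 ^ (n + n) := pow_le_pow_right₀ (by norm_num) (by omega)
      _ = 4 ^ n := by rw [← two_mul, pow_mul]; norm_num
  calc (n.choose k : ℝ) * ((n + k).choose k : ℝ) ≤ 2 ^ n * 4 ^ n := by gcongr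
    _ = 8 ^ n := by rw [← mul_pow]; norm_num

lemma H_le (s k : ℕ) : 0 ≤ H s k ∧ H s k ≤ k := by
  constructor
  · exact sum_nonneg fun j _ => by positivity
  · unfold H
    calc ∑ j ∈ range k, 1 / ((j : ℚ) + 1) ^ s ≤ ∑ j ∈ range k, (1 : ℚ) := by
          refine sum_le_sum fun j _ => ?_
          rw [div_le_one (by positivity)]
          exact one_le_pow₀ (by linarith [show (0 : ℚ) ≤ (j : ℚ) by positivity])
      _ = k := by simp

lemma w_abs {n k l : ℕ} (hk : k ≤ n) (hl : l ≤ n) : |((w k l : ℚ) : ℝ)| ≤ 2 * ((n : ℝ) + 1) := by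
  have hk' : (k : ℚ) ≤ n := by exact_mod_cast hk
  have hl' : (l : ℚ) ≤ n := by exact_mod_cast hl
  have h : |w k l| ≤ 2 * ((n : ℚ) + 1) := by
    unfold w
    split_ifs with h
    · obtain ⟨h1, h2⟩ := H_le 3 k
      rw [abs_le]
      constructor <;> linarith
    · obtain ⟨h1, h2⟩ := H_le 2 k
      obtain ⟨h3, h4⟩ := H_le 2 l
      rw [abs_div]
      have h5 : (1 : ℚ) ≤ |(k : ℚ) - l| := by
        have : (1 : ℤ) ≤ |(k : ℤ) - l| := Int.one_le_abs (by omega)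
        exact_mod_cast this
      refine (div_le_self (abs_nonneg _) h5).trans ?_
      rw [abs_le]
      constructor <;> linarith
  exact_mod_cast h

lemma lin_le (n : ℕ) : ((n : ℝ) + 1) ≤ 2 ^ n := by
  have := (Nat.lt_two_pow_self (n := n))
  exact_mod_cast this

lemma aq_abs (n : ℕ) : |((aq n : ℚ) : ℝ)| ≤ 512 ^ n := by
  unfold aq
  push_cast
  refine (abs_sum_le_sum_abs _ _).trans ?_
  calc ∑ k ∈ range (n + 1), |((cc n k : ℚ) : ℝ) ^ 2| ≤ ∑ k ∈ range (n + 1), ((8 : ℝ) ^ n) ^ 2 := by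
        refine sum_le_sum fun k hk => ?_
        rw [mem_range] at hk
        rw [abs_pow]
        exact pow_le_pow_left₀ (abs_nonneg _) (cc_abs (by omega)) 2
    _ = ((n : ℝ) + 1) * 64 ^ n := by
        rw [sum_const, card_range, nsmul_eq_mul, ← pow_mul, mul_comm n 2, pow_mul]
        norm_num
    _ ≤ 2 ^ n * 64 ^ n := by
        gcongr
        exact lin_le n
    _ = 128 ^ n := by rw [← mul_pow]; norm_num
    _ ≤ 512 ^ n := pow_le_pow_left₀ (by norm_num) (by norm_num) n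

lemma bq_abs (n : ℕ) : |((bq n : ℚ) : ℝ)| ≤ 512 ^ n := by
  unfold bq
  push_cast
  rw [abs_mul]
  have h : |∑ k ∈ range (n + 1), ∑ l ∈ range (n + 1), ((cc n k : ℚ) : ℝ) * ((cc n l : ℚ) : ℝ) * ((w k l : ℚ) : ℝ)| ≤
      ∑ k ∈ range (n + 1), ∑ l ∈ range (n + 1), (8 : ℝ) ^ n * 8 ^ n * (2 * ((n : ℝ) + 1)) := by
    refine (abs_sum_le_sum_abs _ _).trans (sum_le_sum fun k hk => ?_)
    refine (abs_sum_le_sum_abs _ _).trans (sum_le_sum fun l hl => ?_)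
    rw [mem_range] at hk hl
    rw [abs_mul, abs_mul]
    have e1 := cc_abs (show k ≤ n by omega)
    have e2 := cc_abs (show l ≤ n by omega)
    have e3 := w_abs (show k ≤ n by omega) (show l ≤ n by omega)
    gcongr
  calc |(1 / 2 : ℝ)| * |∑ k ∈ range (n + 1), ∑ l ∈ range (n + 1), ((cc n k : ℚ) : ℝ) * ((cc n l : ℚ) : ℝ) * ((w k l : ℚ) : ℝ)|
      ≤ (1 / 2) * ∑ k ∈ range (n + 1), ∑ l ∈ range (n + 1), (8 : ℝ) ^ n * 8 ^ n * (2 * ((n : ℝ) + 1)) := by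
        rw [show |(1 / 2 : ℝ)| = 1 / 2 by norm_num]
        gcongr
    _ = ((n : ℝ) + 1) * ((n : ℝ) + 1) * ((n : ℝ) + 1) * (8 ^ n * 8 ^ n) := by
        simp only [sum_const, card_range, nsmul_eq_mul]
        push_cast
        ring
    _ ≤ 2 ^ n * 2 ^ n * 2 ^ n * (8 ^ n * 8 ^ n) := by
        have := lin_le n
        gcongr
    _ = 512 ^ n := by
        rw [← mul_pow, ← mul_pow, ← mul_pow, ← mul_pow]
        norm_num

lemma lcm_bound (n : ℕ) : (Nat.lcmUpto n : ℝ) ≤ (2 ^ 8) ^ n := by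
  have h1 := Chebyshev.psi_eq_log_lcmUpto n
  have h2 := Chebyshev.psi_le_const_mul_self (x := (n : ℝ)) (by positivity)
  rw [h1] at h2
  have h3 : (0 : ℝ) < Nat.lcmUpto n := by exact_mod_cast Nat.lcmUpto_pos n
  rw [← Real.exp_log h3]
  have h4 : Real.log 4 + 4 ≤ 8 * Real.log 2 := by
    have e1 : Real.log 4 = 2 * Real.log 2 := by
      rw [show (4 : ℝ) = 2 ^ 2 by norm_num, Real.log_pow]
      norm_num
    have e2 := Real.log_two_gt_d9
    rw [e1]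
    linarith
  have h5 : Real.log (Nat.lcmUpto n) ≤ n * (8 * Real.log 2) := by
    refine h2.trans ?_
    rw [mul_comm]
    exact mul_le_mul_of_nonneg_left h4 (by positivity)
  calc Real.exp (Real.log (Nat.lcmUpto n)) ≤ Real.exp (n * (8 * Real.log 2)) := Real.exp_le_exp.2 h5
    _ = _ := by
      rw [Real.exp_nat_mul, show (8 : ℝ) * Real.log 2 = ((8 : ℕ) : ℝ) * Real.log 2 by norm_num, Real.exp_nat_mul,
        Real.exp_log (by norm_num)]

/-- rational numbers which are integers -/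
def IsI (q : ℚ) : Prop := ∃ z : ℤ, q = z

lemma IsI.add {p q : ℚ} (hp : IsI p) (hq : IsI q) : IsI (p + q) := by
  obtain ⟨a, rfl⟩ := hp
  obtain ⟨b, rfl⟩ := hq
  exact ⟨a + b, by push_cast; ring⟩

lemma IsI.neg {p : ℚ} (hp : IsI p) : IsI (-p) := by
  obtain ⟨a, rfl⟩ := hp
  exact ⟨-a, by push_cast; ring⟩

lemma IsI.sub {p q : ℚ} (hp : IsI p) (hq : IsI q) : IsI (p - q) := by
  rw [sub_eq_add_neg]
  exact hp.add hq.neg

lemma IsI.mul {p q : ℚ} (hp : IsI p) (hq : IsI q) : IsI (p * q) := by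
  obtain ⟨a, rfl⟩ := hp
  obtain ⟨b, rfl⟩ := hq
  exact ⟨a * b, by push_cast; ring⟩

lemma IsI.pow {p : ℚ} (hp : IsI p) (n : ℕ) : IsI (p ^ n) := by
  obtain ⟨a, rfl⟩ := hp
  exact ⟨a ^ n, by push_cast; ring⟩

lemma IsI.sum {ι : Type*} (s : Finset ι) (f : ι → ℚ) (h : ∀ i ∈ s, IsI (f i)) : IsI (∑ i ∈ s, f i) := by
  classical
  induction s using Finset.induction_on with
  | empty => exact ⟨0, by simp⟩
  | insert a s ha ih =>
    rw [sum_insert ha]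
    exact (h a (mem_insert_self _ _)).add (ih fun i hi => h i (mem_insert_of_mem hi))

lemma IsI_nat (n : ℕ) : IsI (n : ℚ) := ⟨n, by simp⟩

lemma IsI_div {m j : ℕ} (hj : 1 ≤ j) (hjm : j ≤ m) : IsI ((Nat.lcmUpto m : ℚ) / j) := by
  have hd : j ∣ Nat.lcmUpto m := Finset.dvd_lcm (f := id) (Finset.mem_Icc.2 ⟨by omega, hjm⟩)
  obtain ⟨c, hc⟩ := hd
  have hj0 : (j : ℚ) ≠ 0 := by exact_mod_cast (by omega : j ≠ 0)
  rw [hc]
  push_cast
  rw [mul_div_cancel_left₀ _ hj0]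
  exact IsI_nat c

lemma IsI_H (s : ℕ) {m k : ℕ} (hk : k ≤ m) : IsI ((Nat.lcmUpto m : ℚ) ^ s * H s k) := by
  unfold H
  rw [mul_sum]
  refine IsI.sum _ _ fun j hj => ?_
  rw [mem_range] at hj
  have h := (IsI_div (show 1 ≤ j + 1 by omega) (show j + 1 ≤ m by omega)).pow s
  rw [div_pow] at h
  rw [mul_one_div]
  push_cast at h
  exact h

lemma IsI_w {m k l : ℕ} (hk : k ≤ m) (hl : l ≤ m) : IsI ((Nat.lcmUpto m : ℚ) ^ 3 * w k l) := by
  unfold w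
  split_ifs with h
  · rw [show (Nat.lcmUpto m : ℚ) ^ 3 * (2 * H 3 k) = ((2 : ℕ) : ℚ) * ((Nat.lcmUpto m : ℚ) ^ 3 * H 3 k) by push_cast; ring]
    exact (IsI_nat 2).mul (IsI_H 3 hk)
  · have e : (Nat.lcmUpto m : ℚ) ^ 3 * ((H 2 l - H 2 k) / ((k : ℚ) - l)) =
        ((Nat.lcmUpto m : ℚ) / ((k : ℚ) - l)) * ((Nat.lcmUpto m : ℚ) ^ 2 * H 2 l - (Nat.lcmUpto m : ℚ) ^ 2 * H 2 k) := by
      ring
    rw [e]
    refine IsI.mul ?_ ((IsI_H 2 hl).sub (IsI_H 2 hk))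
    rcases lt_or_gt_of_ne h with h | h
    · have h1 := (IsI_div (m := m) (show 1 ≤ l - k by omega) (show l - k ≤ m by omega)).neg
      rw [Nat.cast_sub h.le] at h1
      rwa [show (Nat.lcmUpto m : ℚ) / ((k : ℚ) - l) = -((Nat.lcmUpto m : ℚ) / ((l : ℚ) - k)) by
        rw [← neg_sub (l : ℚ) (k : ℚ), div_neg]]
    · have h1 := IsI_div (m := m) (show 1 ≤ k - l by omega) (show k - l ≤ m by omega)
      rwa [Nat.cast_sub (le_of_lt h)] at h1

lemma EF_a : EFc aq := by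
  refine ⟨512, by norm_num, fun m => ?_, fun m => ⟨1, one_pos, ?_, fun j _ => ?_⟩⟩
  · exact (aq_abs m).trans (pow_le_pow_right₀ (by norm_num) (by omega))
  · rw [Nat.cast_one]
    exact one_le_pow₀ (by norm_num)
  · exact ⟨Pool.Agent.TH371.Apy.apA j, by rw [aq_eq]; push_cast; ring⟩

lemma EF_b : EFc bq := by
  refine ⟨2 ^ 24, by norm_num, fun m => ?_, fun m => ⟨2 * Nat.lcmUpto m ^ 3, ?_, ?_, fun j hj => ?_⟩⟩
  · calc |((bq m : ℚ) : ℝ)| ≤ 512 ^ m := bq_abs m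
      _ ≤ (2 ^ 24) ^ m := pow_le_pow_left₀ (by norm_num) (by norm_num) m
      _ ≤ (2 ^ 24) ^ (m + 1) := pow_le_pow_right₀ (by norm_num) (by omega)
  · exact Nat.mul_pos (by norm_num) (pow_pos (Nat.lcmUpto_pos m) _)
  · push_cast
    have h2 : (Nat.lcmUpto m : ℝ) ^ 3 ≤ ((2 ^ 8 : ℝ) ^ m) ^ 3 :=
      pow_le_pow_left₀ (by positivity) (lcm_bound m) 3
    have h3 : ((2 ^ 8 : ℝ) ^ m) ^ 3 = (2 ^ 24) ^ m := by
      rw [← pow_mul, mul_comm m 3, pow_mul]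
      norm_num
    rw [h3] at h2
    calc 2 * (Nat.lcmUpto m : ℝ) ^ 3 ≤ 2 ^ 24 * (2 ^ 24) ^ m := by
          refine mul_le_mul (by norm_num) h2 (by positivity) (by norm_num)
      _ = (2 ^ 24) ^ (m + 1) := by rw [pow_succ]; ring
  · have e : ((2 * Nat.lcmUpto m ^ 3 : ℕ) : ℚ) * bq j = ∑ k ∈ range (j + 1), ∑ l ∈ range (j + 1),
        cc j k * cc j l * ((Nat.lcmUpto m : ℚ) ^ 3 * w k l) := by
      unfold bq
      push_cast
      rw [show 2 * (Nat.lcmUpto m : ℚ) ^ 3 * (1 / 2 * ∑ k ∈ range (j + 1), ∑ l ∈ range (j + 1), cc j k * cc j l * w k l) =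
        (Nat.lcmUpto m : ℚ) ^ 3 * ∑ k ∈ range (j + 1), ∑ l ∈ range (j + 1), cc j k * cc j l * w k l by ring, mul_sum]
      refine sum_congr rfl fun k _ => ?_
      rw [mul_sum]
      refine sum_congr rfl fun l _ => ?_
      ring
    change IsI _
    rw [e]
    refine IsI.sum _ _ fun k hk => IsI.sum _ _ fun l hl => ?_
    rw [mem_range] at hk hl
    exact (IsI.mul (cc_int j k) (cc_int j l)).mul (IsI_w (by omega) (by omega))

/-- **AP** -/
theorem t_AP : Pool.Agent.E8helper42.AZ.S_AP := ⟨aq, bq, pair, EF_a, EF_b, Jn_ab⟩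

end Pool.Agent.E8helper51.AZ
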