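import Pool.Agent.E8helper42.AZ.Stm
import Pool.Agent.TH499.ApyRec

/-!
# Apery's linear forms: partial fractions and the creative telescoping identity
-/

set_option autoImplicit false

namespace Pool.Agent.E8helper51.AZ

open Finset Pool.Agent.E8helper42.AZ

/-- the square root of `R_n` -/
noncomputable def rn (n : ℕ) (x : ℝ) : ℝ :=
  (∏ j ∈ Finset.range n, (x - ((j : ℝ) + 1))) / ∏ j ∈ Finset.range (n + 1), (x + (j : ℝ))

lemma Rn_eq (n : ℕ) (x : ℝ) : Rn n x = rn n x ^ 2 := rfl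

/-- the coefficients of the partial fractions -/
def cc (n k : ℕ) : ℚ := (-1) ^ (n + k) * ((n.choose k : ℕ) : ℚ) * (((n + k).choose k : ℕ) : ℚ)

lemma rn_succ (n : ℕ) (x : ℝ) : rn (n + 1) x = rn n x * (x - ((n : ℝ) + 1)) / (x + ((n : ℝ) + 1)) := by
  unfold rn
  rw [prod_range_succ _ n, prod_range_succ _ (n + 1)]
  push_cast
  rw [div_mul_eq_mul_div, div_div]

/-- `c_{n+1,k}` for `k ≤ n` -/
lemma cc_succ {n k : ℕ} (hk : k ≤ n) : cc (n + 1) k = -(((n : ℚ) + k + 1) / ((n : ℚ) + 1 - k)) * cc n k := by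
  have h1 : ((n : ℚ) + 1 - k) ≠ 0 := by
    have : (k : ℚ) ≤ n := by exact_mod_cast hk
    intro h
    linarith
  have hn : ((n : ℚ) + 1) ≠ 0 := by positivity
  have e1 := Pool.Agent.TH499.Apy.ch3 n k
  have e2 := Pool.Agent.TH499.Apy.ch5 n k
  unfold cc
  rw [e2, e1, show n + 1 + k = n + k + 1 by ring, pow_succ]
  field_simp

/-- the product `(n + 2) ⋯ (2 n + 1)` -/
lemma prod_a (n : ℕ) : (((n + 1).factorial : ℕ) : ℝ) * ∏ j ∈ range n, ((n : ℝ) + 2 + j) = (((2 * n + 1).factorial : ℕ) : ℝ) := by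
  have h := Nat.factorial_mul_ascFactorial (n + 1) n
  rw [Nat.ascFactorial_eq_prod_range] at h
  have h2 : (((n + 1).factorial * ∏ i ∈ range n, (n + 1 + 1 + i) : ℕ) : ℝ) = (((n + 1 + n).factorial : ℕ) : ℝ) := by
    exact_mod_cast h
  push_cast at h2
  rw [show n + 1 + n = 2 * n + 1 by ring] at h2
  rw [← h2]
  congr 1
  refine prod_congr rfl fun i _ => by ring

lemma prod_b (n : ℕ) : ∏ j ∈ range (n + 1), ((n : ℝ) + 1 - j) = (((n + 1).factorial : ℕ) : ℝ) := by
  rw [← prod_range_reflect, ← Finset.prod_range_add_one_eq_factorial]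
  push_cast
  refine prod_congr rfl fun i hi => ?_
  rw [mem_range] at hi
  rw [Nat.cast_sub (by omega)]
  ring

lemma rn_neg (n : ℕ) : (2 * (n : ℝ) + 2) * -rn n (-((n : ℝ) + 1)) = (((2 * n + 2).choose (n + 1) : ℕ) : ℝ) := by
  have e1 : ∏ j ∈ range n, (-((n : ℝ) + 1) - ((j : ℝ) + 1)) = (-1) ^ n * ∏ j ∈ range n, ((n : ℝ) + 2 + j) := by
    rw [← card_range n, ← Finset.prod_const, card_range, ← prod_mul_distrib]
    exact prod_congr rfl fun j _ => by ring
  have e2 : ∏ j ∈ range (n + 1), (-((n : ℝ) + 1) + (j : ℝ)) = (-1) ^ (n + 1) * ∏ j ∈ range (n + 1), ((n : ℝ) + 1 - j) := by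
    have : (-1 : ℝ) ^ (n + 1) = ∏ j ∈ range (n + 1), (-1 : ℝ) := by rw [prod_const, card_range]
    rw [this, ← prod_mul_distrib]
    exact prod_congr rfl fun j _ => by ring
  have hf : (((n + 1).factorial : ℕ) : ℝ) ≠ 0 := by positivity
  have e3 : ∏ j ∈ range n, ((n : ℝ) + 2 + j) = (((2 * n + 1).factorial : ℕ) : ℝ) / (((n + 1).factorial : ℕ) : ℝ) := by
    rw [eq_div_iff hf, mul_comm, prod_a]
  have e4 : (((2 * n + 2).choose (n + 1) : ℕ) : ℝ) * (((n + 1).factorial : ℕ) : ℝ) * (((n + 1).factorial : ℕ) : ℝ) =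
      (((2 * n + 2).factorial : ℕ) : ℝ) := by
    have := Nat.choose_mul_factorial_mul_factorial (show n + 1 ≤ 2 * n + 2 by omega)
    rw [show 2 * n + 2 - (n + 1) = n + 1 by omega] at this
    exact_mod_cast this
  have e5 : (((2 * n + 2).factorial : ℕ) : ℝ) = (2 * (n : ℝ) + 2) * (((2 * n + 1).factorial : ℕ) : ℝ) := by
    rw [show 2 * n + 2 = (2 * n + 1) + 1 by ring, Nat.factorial_succ]
    push_cast
    ring
  rw [rn, e1, e2, prod_b, e3]
  have e6 : (((2 * n + 2).choose (n + 1) : ℕ) : ℝ) = (((2 * n + 2).factorial : ℕ) : ℝ) /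
      ((((n + 1).factorial : ℕ) : ℝ) * (((n + 1).factorial : ℕ) : ℝ)) := by
    rw [eq_div_iff (mul_ne_zero hf hf), ← e4]
    ring
  rw [e6, e5, pow_succ]
  have h1 : ((-1 : ℝ)) ^ n ≠ 0 := pow_ne_zero _ (by norm_num)
  field_simp

/-- partial fractions of the square root -/
lemma rn_pf (n : ℕ) : ∀ x : ℝ, (∀ j ≤ n, x + (j : ℝ) ≠ 0) →
    rn n x = ∑ k ∈ range (n + 1), ((cc n k : ℚ) : ℝ) / (x + k) := by
  induction n with
  | zero =>
    intro x _
    simp [rn, cc]
  | succ n ih =>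
    intro x hx
    have hn : x + ((n : ℝ) + 1) ≠ 0 := by
      have := hx (n + 1) le_rfl
      push_cast at this
      exact this
    rw [rn_succ, ih x fun j hj => hx j (by omega), sum_range_succ _ (n + 1)]
    have h1 := ih (-((n : ℝ) + 1)) fun j hj h => by
      have : (j : ℝ) ≤ n := by exact_mod_cast hj
      linarith
    have h2 := rn_neg n
    have h3 : ((cc (n + 1) (n + 1) : ℚ) : ℝ) = (2 * (n : ℝ) + 2) * -rn n (-((n : ℝ) + 1)) := by
      rw [h2]
      unfold cc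
      push_cast
      rw [show n + 1 + (n + 1) = 2 * (n + 1) by ring, pow_mul]
      simp
      rw [show 2 * (n + 1) = 2 * n + 2 by ring]
    rw [h3, h1, sum_mul, sum_div]
    have h4 : ∀ k ∈ range (n + 1), ((cc n k : ℚ) : ℝ) / (x + k) * (x - ((n : ℝ) + 1)) / (x + ((n : ℝ) + 1)) =
        ((cc (n + 1) k : ℚ) : ℝ) / (x + k) - ((cc n k : ℚ) : ℝ) / (-((n : ℝ) + 1) + k) * (2 * (n : ℝ) + 2) / (x + ((n : ℝ) + 1)) := by
      intro k hk
      rw [mem_range] at hk
      have hk' : k ≤ n := by omega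
      rw [cc_succ hk']
      push_cast
      have hk1 := hx k (by omega)
      have hk2 : (k : ℝ) ≤ n := by exact_mod_cast hk'
      have hk3 : (n : ℝ) + 1 - k ≠ 0 := by intro h; linarith
      have hk4 : -((n : ℝ) + 1) + k ≠ 0 := by intro h; linarith
      rw [show -((n : ℝ) + 1) + k = -((n : ℝ) + 1 - k) by ring]
      field_simp
      ring
    rw [sum_congr rfl h4, sum_sub_distrib, ← sum_div, ← sum_mul]
    push_cast
    ring

end Pool.Agent.E8helper51.AZ
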