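import Pool.Agent.E8helper51.AZ.P1

/-!
# Apery's linear forms: derivatives and the recurrence
-/

set_option autoImplicit false

namespace Pool.Agent.E8helper51.AZ

open Finset Pool.Agent.E8helper42.AZ Filter Topology

/-- `r_n` as a sum -/
noncomputable def fs (n : ℕ) (x : ℝ) : ℝ := ∑ k ∈ range (n + 1), ((cc n k : ℚ) : ℝ) / (x + k)

/-- `- r_n'` -/
noncomputable def gs (n : ℕ) (x : ℝ) : ℝ := ∑ k ∈ range (n + 1), ((cc n k : ℚ) : ℝ) / (x + k) ^ 2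

lemma rn_fs (n : ℕ) {x : ℝ} (hx : 0 < x) : rn n x = fs n x :=
  rn_pf n x fun j _ => by positivity

lemma fs_deriv (n : ℕ) {x : ℝ} (hx : 0 < x) : HasDerivAt (fs n) (-gs n x) x := by
  unfold fs gs
  rw [← sum_neg_distrib]
  refine HasDerivAt.fun_sum fun k _ => ?_
  have h1 : HasDerivAt (fun y : ℝ => y + (k : ℝ)) 1 x := (hasDerivAt_id x).add_const _
  have h2 : x + (k : ℝ) ≠ 0 := by positivity
  have h3 := (hasDerivAt_const x ((cc n k : ℚ) : ℝ)).fun_div h1 h2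
  exact h3.congr_deriv (by ring)

lemma rn_deriv (n : ℕ) {x : ℝ} (hx : 0 < x) : HasDerivAt (rn n) (-gs n x) x := by
  refine (fs_deriv n hx).congr_of_eventuallyEq ?_
  filter_upwards [lt_mem_nhds hx] with y hy
  exact rn_fs n hy

/-- `R_n'` -/
noncomputable def dR (n : ℕ) (x : ℝ) : ℝ := -2 * (rn n x * gs n x)

lemma Rn_deriv (n : ℕ) {x : ℝ} (hx : 0 < x) : HasDerivAt (Rn n) (dR n x) x := by
  have h := (rn_deriv n hx).pow 2
  have e : Rn n = rn n ^ 2 := by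
    funext y
    rfl
  rw [e]
  refine h.congr_deriv ?_
  unfold dR
  simp
  ring

lemma fs_bound (n : ℕ) : ∃ K : ℝ, 0 ≤ K ∧ ∀ x : ℝ, 1 ≤ x → |fs n x| ≤ K / x ∧ |gs n x| ≤ K / x ^ 2 := by
  refine ⟨∑ k ∈ range (n + 1), |((cc n k : ℚ) : ℝ)|, sum_nonneg fun _ _ => abs_nonneg _, fun x hx => ⟨?_, ?_⟩⟩
  · unfold fs
    refine (abs_sum_le_sum_abs _ _).trans ?_
    rw [sum_div]
    refine sum_le_sum fun k _ => ?_
    rw [abs_div]
    have : x ≤ |x + k| := by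
      rw [abs_of_nonneg (by positivity)]
      linarith [show (0 : ℝ) ≤ (k : ℝ) by positivity]
    exact div_le_div_of_nonneg_left (abs_nonneg _) (by linarith) this
  · unfold gs
    refine (abs_sum_le_sum_abs _ _).trans ?_
    rw [sum_div]
    refine sum_le_sum fun k _ => ?_
    rw [abs_div]
    have : x ^ 2 ≤ |(x + k) ^ 2| := by
      rw [abs_of_nonneg (by positivity)]
      have : (0 : ℝ) ≤ (k : ℝ) := by positivity
      nlinarith
    exact div_le_div_of_nonneg_left (abs_nonneg _) (by positivity) this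

lemma dR_bound (n : ℕ) : ∃ K : ℝ, 0 ≤ K ∧ ∀ x : ℝ, 1 ≤ x → |dR n x| ≤ K / x ^ 3 := by
  obtain ⟨K, hK, h⟩ := fs_bound n
  refine ⟨2 * K ^ 2, by positivity, fun x hx => ?_⟩
  have hx0 : 0 < x := by linarith
  rw [dR, rn_fs n hx0, abs_mul, abs_mul]
  obtain ⟨h1, h2⟩ := h x hx
  calc |(-2 : ℝ)| * (|fs n x| * |gs n x|) ≤ 2 * (K / x * (K / x ^ 2)) := by
        rw [show |(-2 : ℝ)| = 2 by norm_num]
        gcongr
    _ = 2 * K ^ 2 / x ^ 3 := by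
        field_simp

lemma summable_inv (s : ℕ) (hs : 2 ≤ s) : Summable fun m : ℕ => 1 / ((m : ℝ) + 1) ^ s := by
  have h := (summable_nat_add_iff 1).2 (Real.summable_one_div_nat_pow.2 (show 1 < s by omega))
  refine h.congr fun m => ?_
  push_cast
  rfl

lemma dR_summable (n : ℕ) : Summable fun m : ℕ => dR n ((m : ℝ) + 1) := by
  obtain ⟨K, hK, h⟩ := dR_bound n
  refine Summable.of_norm_bounded (g := fun m : ℕ => K * (1 / ((m : ℝ) + 1) ^ 3)) ((summable_inv 3 (by norm_num)).mul_left K)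
    fun m => ?_
  rw [Real.norm_eq_abs, mul_one_div]
  exact h _ (by linarith [show (0 : ℝ) ≤ (m : ℝ) by positivity])

lemma Jn_eq (n : ℕ) : Jn n = -(1 / 2) * ∑' m : ℕ, dR n ((m : ℝ) + 1) := by
  unfold Jn
  congr 1
  exact tsum_congr fun m => (Rn_deriv n (by positivity)).deriv

/-- the polynomial of the certificate -/
noncomputable def sn (N x : ℝ) : ℝ := 4 * (2 * N + 1) * (-2 * x ^ 2 + x + (2 * N + 1) ^ 2)

/-- its derivative -/
noncomputable def sn' (N x : ℝ) : ℝ := 4 * (2 * N + 1) * (-4 * x + 1)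

lemma sn_deriv (N x : ℝ) : HasDerivAt (sn N) (sn' N x) x := by
  unfold sn sn'
  have h1 : HasDerivAt (fun y : ℝ => -2 * y ^ 2 + y + (2 * N + 1) ^ 2) (-4 * x + 1) x := by
    have h := (((hasDerivAt_pow 2 x).const_mul (-2 : ℝ)).add (hasDerivAt_id x)).add_const ((2 * N + 1) ^ 2)
    refine h.congr_deriv ?_
    simp
    ring
  exact h1.const_mul _

/-- creative telescoping -/
lemma tele (n : ℕ) {x : ℝ} (hx : 0 < x) :
    ((n : ℝ) + 2) ^ 3 * Rn (n + 2) x - (34 * ((n : ℝ) + 1) ^ 3 + 51 * ((n : ℝ) + 1) ^ 2 + 27 * ((n : ℝ) + 1) + 5) * Rn (n + 1) x +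
      ((n : ℝ) + 1) ^ 3 * Rn n x = sn ((n : ℝ) + 1) (x + 1) * Rn (n + 1) (x + 1) - sn ((n : ℝ) + 1) x * Rn (n + 1) x := by
  have h1 : rn (n + 1) x = rn n x * (x - ((n : ℝ) + 1)) / (x + ((n : ℝ) + 1)) := rn_succ n x
  have h2 : rn (n + 2) x = rn n x * (x - ((n : ℝ) + 1)) * (x - ((n : ℝ) + 2)) / ((x + ((n : ℝ) + 1)) * (x + ((n : ℝ) + 2))) := by
    rw [show n + 2 = (n + 1) + 1 by ring, rn_succ, h1]
    push_cast
    rw [show (n : ℝ) + 1 + 1 = n + 2 by ring, div_mul_eq_mul_div, div_div]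
  have h3 : rn (n + 1) (x + 1) = rn n x * x ^ 2 / ((x + ((n : ℝ) + 1)) * (x + ((n : ℝ) + 2))) := by
    unfold rn
    have e1 : ∏ j ∈ range (n + 1), (x + 1 - ((j : ℝ) + 1)) = x * ∏ j ∈ range n, (x - ((j : ℝ) + 1)) := by
      rw [prod_range_succ', mul_comm]
      congr 1
      · push_cast; ring
      · refine prod_congr rfl fun j _ => ?_
        push_cast
        ring
    have e2 : x * ∏ j ∈ range (n + 1 + 1), (x + 1 + (j : ℝ)) =
        (∏ j ∈ range (n + 1), (x + (j : ℝ))) * (x + ((n : ℝ) + 1)) * (x + ((n : ℝ) + 2)) := by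
      have : ∏ j ∈ range (n + 3), (x + (j : ℝ)) = x * ∏ j ∈ range (n + 1 + 1), (x + 1 + (j : ℝ)) := by
        rw [prod_range_succ', mul_comm]
        congr 1
        · push_cast; ring
        · refine prod_congr rfl fun j _ => ?_
          push_cast
          ring
      rw [← this, prod_range_succ, prod_range_succ]
      push_cast
      ring
    have e3 : ∏ j ∈ range (n + 1), (x + (j : ℝ)) ≠ 0 := prod_ne_zero_iff.2 fun j _ => by positivity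
    have e4 : ∏ j ∈ range (n + 1 + 1), (x + 1 + (j : ℝ)) =
        (∏ j ∈ range (n + 1), (x + (j : ℝ))) * (x + ((n : ℝ) + 1)) * (x + ((n : ℝ) + 2)) / x := by
      rw [eq_div_iff hx.ne', mul_comm, e2]
    rw [e1, e4]
    have a1 : x + ((n : ℝ) + 1) ≠ 0 := by positivity
    have a2 : x + ((n : ℝ) + 2) ≠ 0 := by positivity
    field_simp
  rw [Rn_eq, Rn_eq, Rn_eq, Rn_eq, h1, h2, h3, sn, sn]
  have a1 : x + ((n : ℝ) + 1) ≠ 0 := by positivity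
  have a2 : x + ((n : ℝ) + 2) ≠ 0 := by positivity
  field_simp
  ring

/-- derivative of `S_n` -/
noncomputable def dS (n : ℕ) (x : ℝ) : ℝ := sn' ((n : ℝ) + 1) x * Rn (n + 1) x + sn ((n : ℝ) + 1) x * dR (n + 1) x

lemma S_deriv (n : ℕ) {x : ℝ} (hx : 0 < x) :
    HasDerivAt (fun y => sn ((n : ℝ) + 1) y * Rn (n + 1) y) (dS n x) x :=
  (sn_deriv _ x).mul (Rn_deriv (n + 1) hx)

lemma tele' (n : ℕ) {x : ℝ} (hx : 0 < x) :
    ((n : ℝ) + 2) ^ 3 * dR (n + 2) x - (34 * ((n : ℝ) + 1) ^ 3 + 51 * ((n : ℝ) + 1) ^ 2 + 27 * ((n : ℝ) + 1) + 5) * dR (n + 1) x +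
      ((n : ℝ) + 1) ^ 3 * dR n x = dS n (x + 1) - dS n x := by
  have h1 := (((Rn_deriv (n + 2) hx).const_mul (((n : ℝ) + 2) ^ 3)).sub ((Rn_deriv (n + 1) hx).const_mul
    (34 * ((n : ℝ) + 1) ^ 3 + 51 * ((n : ℝ) + 1) ^ 2 + 27 * ((n : ℝ) + 1) + 5))).add
    ((Rn_deriv n hx).const_mul (((n : ℝ) + 1) ^ 3))
  have h2 : HasDerivAt (fun y => sn ((n : ℝ) + 1) (y + 1) * Rn (n + 1) (y + 1)) (dS n (x + 1)) x := by
    have := (S_deriv n (show 0 < x + 1 by linarith)).comp x ((hasDerivAt_id x).add_const (1 : ℝ))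
    rw [mul_one] at this
    exact this
  have h3 := h2.sub (S_deriv n hx)
  refine h1.unique (h3.congr_of_eventuallyEq ?_)
  filter_upwards [lt_mem_nhds hx] with y hy
  exact tele n hy

lemma rn_one (n : ℕ) : rn (n + 1) 1 = 0 := by
  unfold rn
  rw [prod_range_succ']
  simp

lemma dS_one (n : ℕ) : dS n 1 = 0 := by
  unfold dS dR
  rw [Rn_eq, rn_one]
  ring

lemma dS_tendsto (n : ℕ) : Tendsto (fun m : ℕ => dS n ((m : ℝ) + 1)) atTop (𝓝 0) := by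
  obtain ⟨K, hK, h⟩ := fs_bound (n + 1)
  obtain ⟨K', hK', h'⟩ := dR_bound (n + 1)
  set D : ℝ := 4 * (2 * ((n : ℝ) + 1) + 1) * (5 + (2 * ((n : ℝ) + 1) + 1) ^ 2) with hD
  have hD0 : 0 ≤ D := by positivity
  have hb : ∀ x : ℝ, 1 ≤ x → |sn' ((n : ℝ) + 1) x| ≤ D * x ∧ |sn ((n : ℝ) + 1) x| ≤ D * x ^ 2 := by
    intro x hx
    have hx2 : x ≤ x ^ 2 := by nlinarith
    constructor
    · unfold sn'
      rw [abs_mul, abs_of_nonneg (show (0 : ℝ) ≤ 4 * (2 * ((n : ℝ) + 1) + 1) by positivity), hD, mul_assoc (4 * (2 * ((n : ℝ) + 1) + 1))]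
      refine mul_le_mul_of_nonneg_left ?_ (by positivity)
      rw [abs_le]
      constructor <;> nlinarith [sq_nonneg (2 * ((n : ℝ) + 1) + 1), mul_nonneg (sq_nonneg (2 * ((n : ℝ) + 1) + 1)) (show 0 ≤ x by linarith)]
    · unfold sn
      rw [abs_mul, abs_of_nonneg (show (0 : ℝ) ≤ 4 * (2 * ((n : ℝ) + 1) + 1) by positivity), hD, mul_assoc (4 * (2 * ((n : ℝ) + 1) + 1))]
      refine mul_le_mul_of_nonneg_left ?_ (by positivity)
      rw [abs_le]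
      have e := mul_nonneg (sq_nonneg (2 * ((n : ℝ) + 1) + 1)) (show 0 ≤ x ^ 2 - 1 by nlinarith)
      have e' := mul_nonneg (sq_nonneg (2 * ((n : ℝ) + 1) + 1)) (show 0 ≤ x ^ 2 by positivity)
      constructor <;> nlinarith [sq_nonneg (2 * ((n : ℝ) + 1) + 1)]
  have hle : ∀ m : ℕ, |dS n ((m : ℝ) + 1)| ≤ (D * K ^ 2 + D * K') * (1 / ((m : ℝ) + 1)) := by
    intro m
    set x : ℝ := (m : ℝ) + 1 with hx
    have hx1 : 1 ≤ x := by rw [hx]; linarith [show (0 : ℝ) ≤ (m : ℝ) by positivity]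
    have hx0 : 0 < x := by linarith
    unfold dS
    obtain ⟨b1, b2⟩ := hb x hx1
    have b3 := (h x hx1).1
    have b4 := h' x hx1
    have b5 : |Rn (n + 1) x| ≤ (K / x) ^ 2 := by
      rw [Rn_eq, rn_fs _ hx0, abs_pow]
      exact pow_le_pow_left₀ (abs_nonneg _) b3 2
    calc |sn' ((n : ℝ) + 1) x * Rn (n + 1) x + sn ((n : ℝ) + 1) x * dR (n + 1) x| ≤
          |sn' ((n : ℝ) + 1) x| * |Rn (n + 1) x| + |sn ((n : ℝ) + 1) x| * |dR (n + 1) x| := by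
          rw [← abs_mul, ← abs_mul]
          exact abs_add_le _ _
      _ ≤ D * x * (K / x) ^ 2 + D * x ^ 2 * (K' / x ^ 3) := by gcongr
      _ = (D * K ^ 2 + D * K') * (1 / x) := by
          field_simp
  refine squeeze_zero_norm (a := fun m : ℕ => (D * K ^ 2 + D * K') * (1 / ((m : ℝ) + 1))) (fun m => ?_) ?_
  · rw [Real.norm_eq_abs]
    exact hle m
  · have := (tendsto_one_div_add_atTop_nhds_zero_nat (𝕜 := ℝ)).const_mul (D * K ^ 2 + D * K')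
    rwa [mul_zero] at this

/-- the recurrence for `J_n` -/
theorem Jn_rec (n : ℕ) : ((n : ℝ) + 2) ^ 3 * Jn (n + 2) -
    (34 * ((n : ℝ) + 1) ^ 3 + 51 * ((n : ℝ) + 1) ^ 2 + 27 * ((n : ℝ) + 1) + 5) * Jn (n + 1) +
      ((n : ℝ) + 1) ^ 3 * Jn n = 0 := by
  have hs : HasSum (fun m : ℕ => ((n : ℝ) + 2) ^ 3 * dR (n + 2) ((m : ℝ) + 1) -
      (34 * ((n : ℝ) + 1) ^ 3 + 51 * ((n : ℝ) + 1) ^ 2 + 27 * ((n : ℝ) + 1) + 5) * dR (n + 1) ((m : ℝ) + 1) +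
      ((n : ℝ) + 1) ^ 3 * dR n ((m : ℝ) + 1))
      (((n : ℝ) + 2) ^ 3 * (∑' m : ℕ, dR (n + 2) ((m : ℝ) + 1)) -
      (34 * ((n : ℝ) + 1) ^ 3 + 51 * ((n : ℝ) + 1) ^ 2 + 27 * ((n : ℝ) + 1) + 5) * (∑' m : ℕ, dR (n + 1) ((m : ℝ) + 1)) +
      ((n : ℝ) + 1) ^ 3 * (∑' m : ℕ, dR n ((m : ℝ) + 1))) :=
    (((dR_summable (n + 2)).hasSum.mul_left _).sub ((dR_summable (n + 1)).hasSum.mul_left _)).add
      ((dR_summable n).hasSum.mul_left _)
  have h1 := hs.tendsto_sum_nat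
  have h2 : ∀ M : ℕ, ∑ m ∈ range M, (((n : ℝ) + 2) ^ 3 * dR (n + 2) ((m : ℝ) + 1) -
      (34 * ((n : ℝ) + 1) ^ 3 + 51 * ((n : ℝ) + 1) ^ 2 + 27 * ((n : ℝ) + 1) + 5) * dR (n + 1) ((m : ℝ) + 1) +
      ((n : ℝ) + 1) ^ 3 * dR n ((m : ℝ) + 1)) = dS n ((M : ℝ) + 1) := by
    intro M
    induction M with
    | zero => simp [dS_one]
    | succ M ih =>
      rw [sum_range_succ, ih, tele' n (show (0 : ℝ) < (M : ℝ) + 1 by positivity)]
      push_cast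
      ring
  have h3 : Tendsto (fun M : ℕ => dS n ((M : ℝ) + 1)) atTop (𝓝 (((n : ℝ) + 2) ^ 3 * (∑' m : ℕ, dR (n + 2) ((m : ℝ) + 1)) -
      (34 * ((n : ℝ) + 1) ^ 3 + 51 * ((n : ℝ) + 1) ^ 2 + 27 * ((n : ℝ) + 1) + 5) * (∑' m : ℕ, dR (n + 1) ((m : ℝ) + 1)) +
      ((n : ℝ) + 1) ^ 3 * (∑' m : ℕ, dR n ((m : ℝ) + 1)))) := by
    refine h1.congr fun M => h2 M
  have h4 := tendsto_nhds_unique h3 (dS_tendsto n)
  rw [Jn_eq, Jn_eq, Jn_eq]
  linear_combination (-(1 / 2)) * h4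

end Pool.Agent.E8helper51.AZ
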